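import Mathlib
import Pool.Agent.Helper914_BI.Basic
import Pool.Agent.Helper330.DPK.Coh

/-!
# Barely independent families over `ω₁` of size `ω₁`
-/

set_option autoImplicit false

open Cardinal Set MeasureTheory
open scoped ENNReal

namespace Pool.Agent.Results.MP_414bc7_lc.SizeOmegaOne

open Pool.Agent.Helper914_BI
open Pool.Agent.Helper330.DPK.Coh

/-- Families of sets which realize all finite patterns often and all constant infinite patterns
rarely. -/
theorem bi_of_patterns {J Y : Type} [Infinite J] (hYu : ℵ₀ < #Y) (A : J → Set Y)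
    (hpat : ∀ (F : Set J), F.Finite → ∀ h : J → Bool,
      #(⋂ n ∈ F, side (A n) (h n) : Set Y) = #Y)
    (hinf : ∀ Z : Set J, Z.Infinite → ∀ b : Bool, #(⋂ n ∈ Z, side (A n) b : Set Y) < #Y) :
    Function.Injective A ∧ BarelyIndependent Y (range A) := by
  have hAinj : Function.Injective A := by
    intro m n hmn
    by_contra hne
    classical
    have h1 := hpat {m, n} (by simp) (fun i => decide (i = n))
    have hempty : (⋂ i ∈ ({m, n} : Set J), side (A i) (decide (i = n)) : Set Y) = ∅ := by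
      rw [Set.eq_empty_iff_forall_notMem]
      intro y hy
      simp only [mem_iInter] at hy
      have hm := hy m (by simp)
      have hn := hy n (by simp)
      simp only [hne, decide_false, side] at hm
      simp only [decide_true, side] at hn
      rw [hmn] at hm
      exact hn hm
    rw [hempty] at h1
    simp at h1
    exact (Cardinal.aleph0_pos.trans hYu).ne h1
  have hset : ∀ F : Set (Set Y), F ⊆ range A → ∀ h : Set Y → Bool,
      (⋂ B ∈ F, side B (h B) : Set Y) = ⋂ n ∈ A ⁻¹' F, side (A n) (h (A n)) := by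
    intro F hF h
    ext y
    simp only [mem_iInter, mem_preimage]
    constructor
    · intro hy n hn; exact hy _ hn
    · intro hy B hB
      obtain ⟨n, rfl⟩ := hF hB
      exact hy n hB
  refine ⟨hAinj, ?_, ?_, ?_, ?_⟩
  · exact infinite_range_of_injective hAinj
  · rintro _ ⟨n, rfl⟩
    have := hpat {n} (by simp) (fun _ => false)
    simpa [side] using this
  · intro F hF hfin h
    rw [hset F hF h]
    exact hpat _ (hfin.preimage hAinj.injOn) (fun n => h (A n))
  · intro F hF hFinf _ h
    rw [hset F hF h]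
    have hR : (A ⁻¹' F).Infinite := by
      intro hfin
      apply hFinf
      refine (hfin.image A).subset fun B hB => ?_
      obtain ⟨n, rfl⟩ := hF hB
      exact ⟨n, hB, rfl⟩
    obtain ⟨b, hb⟩ : ∃ b : Bool, {n ∈ A ⁻¹' F | h (A n) = b}.Infinite := by
      by_contra hcon
      push Not at hcon
      have h1 := hcon true
      have h2 := hcon false
      apply hR
      refine (h1.union h2).subset fun n hn => ?_
      cases hh : h (A n) with
      | false => exact Or.inr ⟨hn, hh⟩
      | true => exact Or.inl ⟨hn, hh⟩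
    refine lt_of_le_of_lt (Cardinal.mk_le_mk_of_subset ?_) (hinf _ hb b)
    intro y hy
    simp only [mem_iInter] at hy ⊢
    rintro n ⟨hn, hnb⟩
    have := hy n hn
    rwa [hnb] at this

/-- The underlying set of the family: triples `(α, F, t)` with `t ⊆ F ⊆ α` finite. -/
abbrev Y : Type := {p : W × (Finset W × Finset W) // (∀ ξ ∈ p.2.1, ξ < p.1) ∧ p.2.2 ⊆ p.2.1}

lemma mk_W : #W = ℵ₁ := by simp [W]

instance : Infinite W := by
  rw [Cardinal.infinite_iff, mk_W]; exact Cardinal.aleph0_lt_aleph_one.le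

lemma mk_Y : #Y = ℵ₁ := by
  have hW : ℵ₀ ≤ #W := by rw [mk_W]; exact Cardinal.aleph0_lt_aleph_one.le
  apply le_antisymm
  · refine (Cardinal.mk_subtype_le _).trans ?_
    have h1 : #(Finset W) = #W := Cardinal.mk_finset_of_infinite W
    have : #(W × (Finset W × Finset W)) = #W * (#(Finset W) * #(Finset W)) := by simp
    rw [this, h1, Cardinal.mul_eq_self hW, Cardinal.mul_eq_self hW, mk_W]
  · rw [← mk_W]
    refine Cardinal.mk_le_of_injective (f := fun a : W => (⟨(a, (∅, ∅)), by simp⟩ : Y)) ?_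
    intro a b hab
    have := congrArg (fun y : Y => y.1.1) hab
    exact this

open Classical in
/-- The sets of the family. -/
def A (x : W → Set ℕ) (ξ : W) : Set Y :=
  {y | if ξ ∈ y.1.2.1 then ξ ∈ y.1.2.2 else cg y.1.1 ξ ∈ x y.1.1}

lemma countable_fiber (C : Set W) (hC : C.Countable) : {y : Y | y.1.1 ∈ C}.Countable := by
  have h1 : ∀ α : W, {y : Y | y.1.1 = α}.Countable := by
    intro α
    have hS : {F : Set W | F.Finite ∧ F ⊆ Iio α}.Countable :=
      Set.countable_ofPred_finite_subset (countable_Iio α)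
    refine Set.MapsTo.countable_of_injOn
      (f := fun y : Y => ((y.1.2.1 : Set W), (y.1.2.2 : Set W))) ?_ ?_ (hS.prod hS)
    · rintro ⟨⟨a, F, t⟩, h⟩ rfl
      refine ⟨⟨F.finite_toSet, fun ξ hξ => h.1 ξ (by simpa using hξ)⟩,
        ⟨t.finite_toSet, fun ξ hξ => h.1 ξ (h.2 (by simpa using hξ))⟩⟩
    · rintro ⟨⟨a, F, t⟩, h⟩ rfl ⟨⟨a', F', t'⟩, h'⟩ ha hyy
      simp only [Prod.mk.injEq, Finset.coe_inj] at hyy
      obtain ⟨rfl, rfl⟩ := hyy
      have : a' = a := ha
      subst this
      rfl
  have : {y : Y | y.1.1 ∈ C} = ⋃ α ∈ C, {y : Y | y.1.1 = α} := by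
    ext y; simp
  rw [this]
  exact hC.biUnion fun α _ => h1 α

/-- A countable subset of `W` is bounded. -/
lemma exists_bound (C : Set W) (hC : C.Countable) : ∃ γ : W, ∀ ξ ∈ C, ξ < γ := by
  by_contra hcon
  push Not at hcon
  have huniv : (Set.univ : Set W) ⊆ ⋃ ξ ∈ C, Iic ξ := by
    intro γ _
    obtain ⟨ξ, hξ, h⟩ := hcon γ
    exact mem_biUnion hξ h
  have := (hC.biUnion fun ξ _ => countable_Iic ξ).mono huniv
  rw [← Cardinal.le_aleph0_iff_set_countable, Cardinal.mk_univ, mk_W] at this
  exact absurd this (not_le.2 Cardinal.aleph0_lt_aleph_one)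

/-- **Step-up.** -/
theorem step_up (x : W → Set ℕ) (hx : ∀ R : Set ℕ, R.Infinite → {a | ¬ Splits (x a) R}.Countable) :
    Function.Injective (A x) ∧ BarelyIndependent Y (range (A x)) := by
  classical
  apply bi_of_patterns (by rw [mk_Y]; exact Cardinal.aleph0_lt_aleph_one)
  · intro G hG h
    apply le_antisymm (Cardinal.mk_set_le _)
    obtain ⟨γ, hγ⟩ := exists_bound G hG.countable
    have hIci : #(Ici γ) = #W := by
      have h1 : #(Iio γ) ≤ ℵ₀ := Cardinal.le_aleph0_iff_set_countable.2 (countable_Iio γ)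
      have h2 : Ici γ = (Iio γ)ᶜ := by simp
      rw [h2]
      apply Cardinal.mk_compl_of_infinite
      rw [mk_W]
      exact h1.trans_lt Cardinal.aleph0_lt_aleph_one
    rw [mk_Y, ← mk_W, ← hIci]
    let F : Finset W := hG.toFinset
    let t : Finset W := F.filter fun ξ => h ξ = false
    have hFt : ∀ α : Ici γ, (∀ ξ ∈ F, ξ < α.1) ∧ t ⊆ F := fun α =>
      ⟨fun ξ hξ => (hγ ξ (by simpa [F] using hξ)).trans_le α.2, Finset.filter_subset _ _⟩
    refine Cardinal.mk_le_of_injective (f := fun α : Ici γ =>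
      (⟨⟨(α.1, (F, t)), hFt α⟩, ?_⟩ : (⋂ n ∈ G, side (A x n) (h n) : Set Y))) ?_
    · simp only [mem_iInter]
      intro ξ hξ
      have hξF : ξ ∈ F := by simpa [F] using hξ
      cases hh : h ξ with
      | false => simp [side, A, hξF, t, hh]
      | true => simp [side, A, hξF, t, hh]
    · intro a b hab
      have := congrArg (fun z : (⋂ n ∈ G, side (A x n) (h n) : Set Y) => z.1.1.1) hab
      exact Subtype.ext this
  · intro Z0 hZ0 b
    -- pass to a countable subset
    obtain ⟨Z, hZsub, hZinf, hZc⟩ : ∃ Z ⊆ Z0, Z.Infinite ∧ Z.Countable := by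
      have : Infinite Z0 := hZ0.to_subtype
      let e : ℕ ↪ Z0 := Infinite.natEmbedding Z0
      refine ⟨range fun n => (e n : W), ?_, infinite_range_of_injective
        (Subtype.val_injective.comp e.injective), countable_range _⟩
      rintro _ ⟨n, rfl⟩; exact (e n).2
    obtain ⟨γ, hγ⟩ := exists_bound Z hZc
    set R : Set ℕ := cg γ '' Z with hRdef
    have hR : R.Infinite := by
      intro hfin
      obtain ⟨m, hm⟩ := hfin.bddAbove
      apply hZinf
      refine (cg_fin γ m).subset fun ξ hξ => ⟨hγ ξ hξ, hm (mem_image_of_mem _ hξ)⟩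
    have hC := (countable_Iio γ).union (hx R hR)
    have hcount := countable_fiber _ hC
    rw [mk_Y]
    refine lt_of_le_of_lt (Cardinal.mk_le_mk_of_subset ?_)
      ((Cardinal.le_aleph0_iff_set_countable.2 hcount).trans_lt Cardinal.aleph0_lt_aleph_one)
    rintro ⟨⟨α, F, t⟩, hy⟩ hmem
    simp only [mem_iInter] at hmem
    show α ∈ Iio γ ∪ {a | ¬ Splits (x a) R}
    by_cases hα : α < γ
    · exact Or.inl hα
    right
    have hγα : γ ≤ α := not_lt.1 hα
    -- the finite exceptional set
    have hex : ((F : Set W) ∪ {ξ | ξ < γ ∧ ξ < α ∧ cg γ ξ ≠ cg α ξ}).Finite :=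
      F.finite_toSet.union (cg_coh γ α)
    set E : Set W := (F : Set W) ∪ {ξ | ξ < γ ∧ ξ < α ∧ cg γ ξ ≠ cg α ξ} with hE
    have hval : ∀ ξ ∈ Z, ξ ∉ E → (cg γ ξ ∈ x α ↔ b = false) := by
      intro ξ hξ hξE
      simp only [hE, mem_union, not_or, mem_ofPred_eq, not_and, ne_eq, not_not] at hξE
      have h1 := hξE.2 (hγ ξ hξ) ((hγ ξ hξ).trans_le hγα)
      have h2 := hmem ξ (hZsub hξ)
      have h3 : ξ ∉ F := by simpa using hξE.1
      rw [h1]
      cases b with
      | false => simpa [side, A, h3] using h2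
      | true => simpa [side, A, h3] using h2
    intro hs
    cases b with
    | false =>
      apply hs.2
      refine (hex.image (cg γ)).subset ?_
      rintro _ ⟨⟨ξ, hξ, rfl⟩, hn⟩
      by_contra hcon
      have hξE : ξ ∉ E := fun h => hcon (mem_image_of_mem _ h)
      exact hn ((hval ξ hξ hξE).2 rfl)
    | true =>
      apply hs.1
      refine (hex.image (cg γ)).subset ?_
      rintro _ ⟨⟨ξ, hξ, rfl⟩, hn⟩
      by_contra hcon
      have hξE : ξ ∉ E := fun h => hcon (mem_image_of_mem _ h)
      exact absurd ((hval ξ hξ hξE).1 hn) (by decide)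

/-- The fair coin. -/
noncomputable def coin : Measure Bool := (2⁻¹ : ℝ≥0∞) • Measure.count

lemma coin_singleton (b : Bool) : coin {b} = 2⁻¹ := by
  simp [coin]

instance : IsProbabilityMeasure coin := by
  constructor
  have h : (Set.univ : Set Bool) = {false} ∪ {true} := by
    ext b; cases b <;> simp
  rw [h, measure_union (by simp) (measurableSet_singleton _), coin_singleton, coin_singleton]
  exact ENNReal.inv_two_add_inv_two

/-- The coin-tossing (Haar) measure on the Cantor space. -/
noncomputable def haar : Measure (ℕ → Bool) := Measure.infinitePi fun _ => coin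

lemma closed_piece (R : Set ℕ) (k : ℕ) (b : Bool) :
    IsClosed {s : ℕ → Bool | ∀ n ∈ R, k ≤ n → s n = b} := by
  have : {s : ℕ → Bool | ∀ n ∈ R, k ≤ n → s n = b} =
      ⋂ n ∈ R, ⋂ (_ : k ≤ n), {s | s n = b} := by
    ext s; simp
  rw [this]
  refine isClosed_biInter fun n _ => isClosed_iInter fun _ => ?_
  exact isClosed_eq (continuous_apply n) continuous_const

lemma null_piece (R : Set ℕ) (hR : R.Infinite) (k : ℕ) (b : Bool) :
    haar {s : ℕ → Bool | ∀ n ∈ R, k ≤ n → s n = b} = 0 := by
  have hR' : (R ∩ Ici k).Infinite := by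
    intro hfin
    apply hR
    refine (hfin.union (finite_lt_nat k)).subset fun n hn => ?_
    by_cases h : k ≤ n
    · exact Or.inl ⟨hn, h⟩
    · exact Or.inr (by simpa using h)
  have hle : ∀ m : ℕ, haar {s : ℕ → Bool | ∀ n ∈ R, k ≤ n → s n = b} ≤ (2⁻¹ : ℝ≥0∞) ^ m := by
    intro m
    obtain ⟨F, hF, hFm⟩ := hR'.exists_subset_card_eq m
    have h1 : haar (Set.pi (F : Set ℕ) fun _ => {b}) = (2⁻¹ : ℝ≥0∞) ^ m := by
      rw [haar, Measure.infinitePi_pi _ (fun i _ => measurableSet_singleton _)]
      simp [coin_singleton, hFm]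
    rw [← h1]
    apply measure_mono
    intro s hs n hn
    have := hF hn
    exact hs n this.1 this.2
  have hlim : Filter.Tendsto (fun m : ℕ => (2⁻¹ : ℝ≥0∞) ^ m) Filter.atTop (nhds 0) :=
    ENNReal.tendsto_pow_atTop_nhds_zero_of_lt_one (by simp)
  exact le_antisymm (ge_of_tendsto' hlim hle) bot_le

/-- An uncountable subset of the Cantor space all of whose intersections with closed null
sets are countable gives an `ω₁`-sequence as required. -/
theorem sequence_of_set (S : Set (ℕ → Bool)) (hS : ¬ S.Countable)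
    (hC : ∀ C : Set (ℕ → Bool), IsClosed C → haar C = 0 → (S ∩ C).Countable) :
    ∃ x : W → Set ℕ, ∀ R : Set ℕ, R.Infinite → {a | ¬ Splits (x a) R}.Countable := by
  have hle : #W ≤ #S := by
    rw [mk_W]
    by_contra hcon
    push Not at hcon
    exact hS (Cardinal.le_aleph0_iff_set_countable.1 (Cardinal.lt_aleph_one_iff.1 hcon))
  obtain ⟨e⟩ := (Cardinal.le_def _ _).1 hle
  refine ⟨fun a => {n | (e a : ℕ → Bool) n = true}, fun R hR => ?_⟩
  have hcov : {a | ¬ Splits {n | (e a : ℕ → Bool) n = true} R} ⊆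
      ⋃ p : ℕ × Bool, {a | (e a : ℕ → Bool) ∈ S ∩ {s | ∀ n ∈ R, p.1 ≤ n → s n = p.2}} := by
    intro a ha
    simp only [mem_ofPred_eq, Splits, not_and_or, Set.not_infinite] at ha
    rcases ha with h | h
    · obtain ⟨k, hk⟩ := h.bddAbove
      refine mem_iUnion.2 ⟨(k+1, false), (e a).2, fun n hn hkn => ?_⟩
      by_contra hmem
      have := hk (show n ∈ R ∩ {n | (e a : ℕ → Bool) n = true} from ⟨hn, by simpa using hmem⟩)
      simp at hkn
      omega
    · obtain ⟨k, hk⟩ := h.bddAbove
      refine mem_iUnion.2 ⟨(k+1, true), (e a).2, fun n hn hkn => ?_⟩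
      by_contra hmem
      have := hk (show n ∈ R \ {n | (e a : ℕ → Bool) n = true} from ⟨hn, by simpa using hmem⟩)
      simp at hkn
      omega
  refine (countable_iUnion fun p => ?_).mono hcov
  have h1 := hC _ (closed_piece R p.1 p.2) (null_piece R hR p.1 p.2)
  exact h1.preimage_of_injOn (fun a _ b _ hab => e.injective (Subtype.ext hab))

/-- **Main result.** -/
theorem result :
    List.TFAE [
      -- there is a barely independent family over `ω₁`
      ∃ X : Type, #X = ℵ₁ ∧ ∃ I : Set (Set X), BarelyIndependent X I,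
      -- there is a barely independent family over `ω₁` of cardinality `ω₁`
      ∃ X : Type, #X = ℵ₁ ∧ ∃ I : Set (Set X), BarelyIndependent X I ∧ #I = ℵ₁,
      -- there is an `ω₁`-sequence of subsets of `ω` such that every infinite subset of `ω` is
      -- split by all but countably many of them
      ∃ X : Type, #X = ℵ₁ ∧ ∃ x : X → Set ℕ,
        ∀ R : Set ℕ, R.Infinite → {a | ¬ Splits (x a) R}.Countable] ∧
    -- these hold if some uncountable set of reals has countable intersection with every closed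
    -- null set
    ((∃ S : Set (ℕ → Bool), ¬ S.Countable ∧
        ∀ C : Set (ℕ → Bool), IsClosed C → haar C = 0 → (S ∩ C).Countable) →
      ∃ X : Type, #X = ℵ₁ ∧ ∃ I : Set (Set X), BarelyIndependent X I ∧ #I = ℵ₁) := by
  have main : ∀ x : W → Set ℕ, (∀ R : Set ℕ, R.Infinite → {a | ¬ Splits (x a) R}.Countable) →
      ∃ X : Type, #X = ℵ₁ ∧ ∃ I : Set (Set X), BarelyIndependent X I ∧ #I = ℵ₁ := by
    intro x hx
    obtain ⟨hinj, hbi⟩ := step_up x hx
    refine ⟨Y, mk_Y, range (A x), hbi, ?_⟩
    rw [Cardinal.mk_range_eq _ hinj, mk_W]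
  refine ⟨?_, ?_⟩
  · tfae_have 2 → 1 := by
      rintro ⟨X, hX, I, hI, -⟩
      exact ⟨X, hX, I, hI⟩
    tfae_have 1 → 3 := by
      rintro h
      have hreg1 : (ℵ₁ : Cardinal.{0}).ord.cof = ℵ₁ := Cardinal.isRegular_aleph_one.cof_ord
      have hcf1 : ℵ₀ < (ℵ₁ : Cardinal.{0}).ord.cof := by
        rw [hreg1]; exact Cardinal.aleph0_lt_aleph_one
      obtain ⟨X, hX, x, hx⟩ := exists_sequence hcf1 h
      refine ⟨X, hX, x, fun R hR => ?_⟩
      have := hx R hR
      rw [hX] at this
      exact Cardinal.le_aleph0_iff_set_countable.1 (Cardinal.lt_aleph_one_iff.1 this)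
    tfae_have 3 → 2 := by
      rintro ⟨X, hX, x, hx⟩
      have hXW : #W = #X := by rw [hX, mk_W]
      obtain ⟨e⟩ := Cardinal.eq.1 hXW
      refine main (fun a => x (e a)) fun R hR => ?_
      exact (hx R hR).preimage e.injective
    tfae_finish
  · rintro ⟨S, hS, hC⟩
    obtain ⟨x, hx⟩ := sequence_of_set S hS hC
    exact main x hx

end Pool.Agent.Results.MP_414bc7_lc.SizeOmegaOne
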